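import Pool.Agent.helper88.HT.Spec

set_option autoImplicit false

namespace Pool.Agent.helper88.HT

open Pool.Agent.helper38.Neg Pool.Agent.helper55.NT

theorem PAD (h1 : REN_stmt) : PAD_stmt := by
  rintro k A ⟨p, hp⟩
  refine ⟨p, fun n => ?_⟩
  have hmn : min (k n) n ≤ n := min_le_right _ _
  obtain ⟨w, s, hw, hs, C, o, hC⟩ := hp (min (k n) n)
  have hev : p.eval (min (k n) n) ≤ p.eval n := eval_mono p hmn
  let ι : Fin (min (k n) n + w) → Fin (n + w) :=
    Fin.append (fun i : Fin (min (k n) n) => Fin.castAdd w (Fin.castLE hmn i))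
      (fun j : Fin w => Fin.natAdd n j)
  obtain ⟨C', o', hC'⟩ := h1 _ (n + w) s C o ι
  refine ⟨w, s, hw.trans hev, hs.trans hev, C', o', fun x => ?_⟩
  have hval : ∀ y : Fin w → Bool, (fun i => Fin.append x y (ι i)) =
      Fin.append (fun i => x (Fin.castLE hmn i)) y := by
    intro y
    funext j
    refine Fin.addCases (fun i => ?_) (fun i => ?_) j
    · simp [ι]
    · simp [ι]
  show A (min (k n) n) (fun i => x (Fin.castLE hmn i)) ↔ _
  rw [hC]
  constructor
  · rintro ⟨y, hy⟩
    exact ⟨y, by rw [hC', hval]; exact hy⟩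
  · rintro ⟨y, hy⟩
    refine ⟨y, ?_⟩
    rw [hC', hval] at hy
    exact hy

end Pool.Agent.helper88.HT
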