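import Pool.Agent.helper88.HT.Spec

set_option autoImplicit false

namespace Pool.Agent.helper88.HT

open Pool.Agent.helper38.Neg Pool.Agent.helper55.NT

lemma POL_mono (k : ℕ → ℕ) (n : ℕ) : Monotone (pad k lang n) := by
  intro x y hxy h
  exact lang_mono _ (fun i => hxy _) h

lemma POL_lg (n : ℕ) : lg (lg n) ≤ lg n := by
  have h0 : lg n ≤ n + 1 := by
    unfold lg
    have h := Nat.log_lt_self 2 (x := n + 2) (by omega)
    omega
  unfold lg
  rw [show Nat.log 2 (n + 2) = lg n from rfl]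
  have h3 : lg n + 2 ≤ n + 2 ∨ n = 0 := by
    by_cases hn : n = 0
    · exact Or.inr hn
    · refine Or.inl ?_
      have : lg n ≤ n := by
        unfold lg
        have h5 : n + 2 < 2 ^ (n + 1) := by
          have : ∀ m : ℕ, m + 1 + 2 < 2 ^ (m + 1 + 1) := by
            intro m
            induction m with
            | zero => norm_num
            | succ m ih =>
              have e1 : 2 ^ (m + 1 + 1 + 1) = 2 * 2 ^ (m + 1 + 1) := by ring
              omega
          obtain ⟨m, rfl⟩ := Nat.exists_eq_succ_of_ne_zero hn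
          exact this m
        have := Nat.log_lt_of_lt_pow (b := 2) (by omega) h5
        omega
      omega
  rcases h3 with h | h
  · exact Nat.log_mono_right h
  · subst h
    decide

lemma POL_grow (h1 : GRO_stmt) (b : Bool) (k : ℕ → ℕ) (c : ℕ)
    (h : ∀ n, ∃ s ≤ 2 ^ (c * lg n ^ c), ∃ (C : Circuit n s) (o : Fin (n + s)),
      C.Computes o (pad k lang n) ∧ HazardFree b (k n) C o) :
    ∃ d, ∀ n, min (k n) n ≤ d * lg n ^ d := by
  obtain ⟨d, hd⟩ := h1 b k c c h
  refine ⟨d + (4 * c + 1), fun n => (hd n).trans ?_⟩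
  have hL : 1 ≤ lg n := lg_pos n
  calc d * lg n ^ (4 * c) * lg (lg n) ≤ d * lg n ^ (4 * c) * lg n :=
        Nat.mul_le_mul_left _ (POL_lg n)
    _ = d * lg n ^ (4 * c + 1) := by ring
    _ ≤ (d + (4 * c + 1)) * lg n ^ (d + (4 * c + 1)) :=
        Nat.mul_le_mul (by omega) (Nat.pow_le_pow_right hL (by omega))

theorem POL (h1 : GRO_stmt) (h2 : PAD_stmt) : POL_stmt := by
  intro b k l
  constructor
  · intro h
    obtain ⟨p, hp⟩ := h (pad k lang) (h2 k lang lang_inNPPoly) (POL_mono k)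
    obtain ⟨c, hc⟩ := eval_le_two_pow p
    have h3 := h1 b k c 1 (fun n => by
      obtain ⟨s, hs, C, o, g1, g2, _⟩ := hp n
      exact ⟨s, hs.trans (hc n), C, o, g1, g2⟩)
    simpa using h3
  · intro h
    obtain ⟨c, hc⟩ := h (pad k lang) (h2 k lang lang_inNPPoly) (POL_mono k)
    obtain ⟨c', hc'⟩ := h (pad l lang) (h2 l lang lang_inNPPoly) (POL_mono l)
    obtain ⟨d, hd⟩ := POL_grow h1 b k c (fun n => by
      obtain ⟨s, hs, C, o, g1, g2, _⟩ := hc n
      exact ⟨s, hs, C, o, g1, g2⟩)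
    obtain ⟨d', hd'⟩ := POL_grow h1 (!b) l c' (fun n => by
      obtain ⟨s, hs, C, o, g1, _, g3⟩ := hc' n
      exact ⟨s, hs, C, o, g1, g3⟩)
    refine ⟨d + d', fun n => (hd n).trans ?_, fun n => (hd' n).trans ?_⟩
    · exact Nat.mul_le_mul (by omega) (Nat.pow_le_pow_right (lg_pos n) (by omega))
    · exact Nat.mul_le_mul (by omega) (Nat.pow_le_pow_right (lg_pos n) (by omega))

end Pool.Agent.helper88.HT
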